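import Pool.Agent.Lib.MP_cdd7b4_an.MX.H72.Sel1

set_option autoImplicit false

/-! # Module SEL2 (helper72): selection of the rows -/

namespace Pool.Agent.Lib.MP_cdd7b4_an.MX.H72

open Pool.Agent.Lib.MP_cdd7b4_an.H80
open scoped BigOperators

/-- The placement of the slots. -/
def pl (m s0 : ℕ) : Fin m × Fin s0 ↪ ℕ :=
  ⟨fun z => m * z.2 + z.1, fun a b h => by
    have hm : 0 < m := a.1.pos
    have h' : m * (a.2 : ℕ) + a.1 = m * b.2 + b.1 := h
    have h1 : (a.1 : ℕ) = b.1 := by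
      have h2 := congrArg (· % m) h'
      simp only [Nat.mul_add_mod] at h2
      rwa [Nat.mod_eq_of_lt a.1.2, Nat.mod_eq_of_lt b.1.2] at h2
    have h3 : (a.2 : ℕ) = b.2 := by
      rw [h1] at h'
      exact Nat.eq_of_mul_eq_mul_left hm (Nat.add_right_cancel h')
    exact Prod.ext (Fin.ext h1) (Fin.ext h3)⟩

theorem cop_apply {m : ℕ} (b : Fin m → ℝ) (W : ℕ →₀ ℝ) (j : Fin m) (s : ℕ) :
    cop b W (m * s + j) = b j * W s := by
  unfold cop
  rw [Finsupp.finsetSum_apply, Finset.sum_eq_single j]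
  · rw [Finsupp.smul_apply, smul_eq_mul]
    congr 1
    exact Finsupp.embDomain_apply_self (em j) W s
  · intro j' _ hj'
    rw [Finsupp.smul_apply, Finsupp.embDomain_of_notMem_range, smul_zero]
    rintro ⟨s', hs'⟩
    have h' : m * s' + j' = m * s + j := hs'
    have h2 := congrArg (· % m) h'
    simp only [Nat.mul_add_mod] at h2
    rw [Nat.mod_eq_of_lt j'.2, Nat.mod_eq_of_lt j.2] at h2
    exact hj' (Fin.ext h2)
  · intro h
    exact absurd (Finset.mem_univ _) h

theorem cop_apply_ne {m : ℕ} {b : Fin m → ℝ} {W : ℕ →₀ ℝ} {i : ℕ} (h : cop b W i ≠ 0) :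
    ∃ (j : Fin m) (s : ℕ), i = m * s + j ∧ W s ≠ 0 := by
  unfold cop at h
  rw [Finsupp.finsetSum_apply] at h
  obtain ⟨j, -, hj⟩ := Finset.exists_ne_zero_of_sum_ne_zero h
  rw [Finsupp.smul_apply, smul_eq_mul] at hj
  have h1 := right_ne_zero_of_mul hj
  by_cases hr : i ∈ Set.range (em j)
  · obtain ⟨s, rfl⟩ := hr
    rw [Finsupp.embDomain_apply_self] at h1
    exact ⟨j, s, rfl, h1⟩
  · exact absurd (Finsupp.embDomain_of_notMem_range _ _ _ hr) h1

section symF

variable {F : (ℕ →₀ ℝ) → ℝ}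

theorem symF_zero (hF : SymF F) : F 0 = 0 := by
  have := hF.smul 0 0
  rwa [smul_zero, abs_zero, zero_mul] at this

theorem symF_nonneg (hF : SymF F) (u : ℕ →₀ ℝ) : 0 ≤ F u := by
  have h1 := hF.mono 0 u fun i => by simp
  rwa [symF_zero hF] at h1

theorem symF_sum_le (hF : SymF F) {ι : Type*} (s : Finset ι) (u : ι → ℕ →₀ ℝ) :
    F (∑ i ∈ s, u i) ≤ ∑ i ∈ s, F (u i) := by
  classical
  induction s using Finset.induction_on with
  | empty => simp [symF_zero hF]
  | insert a s ha ih =>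
    rw [Finset.sum_insert ha, Finset.sum_insert ha]
    exact (hF.add _ _).trans (add_le_add le_rfl ih)

theorem cop_le (hF : SymF F) {m : ℕ} (b : Fin m → ℝ) (W : ℕ →₀ ℝ) :
    F (cop b W) ≤ (∑ j, |b j|) * F W := by
  unfold cop
  refine (symF_sum_le hF _ _).trans ?_
  rw [Finset.sum_mul]
  refine Finset.sum_le_sum fun j _ => ?_
  rw [hF.smul, hF.emb]

theorem cop_add {m : ℕ} (b b' : Fin m → ℝ) (W : ℕ →₀ ℝ) :
    cop (fun j => b j + b' j) W = cop b W + cop b' W := by
  unfold cop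
  rw [← Finset.sum_add_distrib]
  exact Finset.sum_congr rfl fun j _ => add_smul _ _ _

theorem cop_smul {m : ℕ} (c : ℝ) (b : Fin m → ℝ) (W : ℕ →₀ ℝ) :
    cop (fun j => c * b j) W = c • cop b W := by
  unfold cop
  rw [Finset.smul_sum]
  exact Finset.sum_congr rfl fun j _ => mul_smul _ _ _

theorem le_cop (hF : SymF F) {m : ℕ} {b : Fin m → ℝ} {W : ℕ →₀ ℝ} (j : Fin m) :
    |b j| * F W ≤ F (cop b W) := by
  have h1 := hF.mono ((b j) • W.embDomain (em j)) (cop b W) fun i => by
    by_cases hr : i ∈ Set.range (em j)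
    · obtain ⟨s, rfl⟩ := hr
      have h2 : cop b W (em j s) = b j * W s := cop_apply b W j s
      rw [h2, Finsupp.smul_apply, Finsupp.embDomain_apply_self, smul_eq_mul]
    · rw [Finsupp.smul_apply, Finsupp.embDomain_of_notMem_range _ _ _ hr, smul_zero, abs_zero]
      exact abs_nonneg _
  rwa [hF.smul, hF.emb] at h1

end symF

section

variable {𝕜 : Type*} [RCLike 𝕜] {X : Type*} [NormedAddCommGroup X] [NormedSpace 𝕜 X]

theorem av_cop (hsymf : SymfStatement 𝕜 X) {I Ω : Type} [Fintype I] [Nonempty I] [Fintype Ω]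
    [Nonempty Ω] {U : I → Ω → X} (hU : Symm U) {m n : ℕ} {W : ℕ →₀ ℝ}
    (hW : ∀ i, 2 ^ n ≤ i → W i = 0) (b : Fin m → ℝ) :
    av (fun π : Fin m × Fin (2 ^ n) → I => NR 𝕜 U π (fun js => b js.1 * W js.2) 0) =
      Fbar 𝕜 U (cop b W) := by
  have h1 := (hsymf I Ω U hU).2 (Fin m × Fin (2 ^ n)) (pl m (2 ^ n)) (cop b W) fun i hi => by
    obtain ⟨j, s, rfl, hs⟩ := cop_apply_ne hi
    have hsn : s < 2 ^ n := by
      by_contra hc
      exact hs (hW s (by omega))
    exact ⟨(j, ⟨s, hsn⟩), rfl⟩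
  rw [h1]
  congr 1
  funext π
  congr 1
  funext js
  exact (cop_apply b W js.1 js.2).symm

end

/-- The net. -/
noncomputable def net (m : ℕ) (z : Fin m → Fin (4 * m + 1)) : Fin m → ℝ :=
  fun j => (z j : ℝ) / (4 * m)

/-- **SEL2** -/
theorem sel2 (𝕜 : Type*) [RCLike 𝕜] (X : Type*) [NormedAddCommGroup X] [NormedSpace 𝕜 X]
    (hsymf : SymfStatement 𝕜 X) (hself : SelfbStatement 𝕜 X) (hunc : UncStatement 𝕜 X)
    (_hmarg : MargStatement) : Sel2Statement 𝕜 X := by
  classical
  intro m M hm hM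
  have hm0 : (0 : ℝ) < m := by exact_mod_cast hm
  have hm1 : (1 : ℝ) ≤ m := by exact_mod_cast hm
  refine ⟨1 / (32 * M * (4 * m + 1) ^ m), by positivity, ?_, ?_⟩
  · rw [div_le_one (by positivity)]
    have h1 : (1 : ℝ) ≤ (4 * m + 1) ^ m := one_le_pow₀ (by linarith)
    nlinarith
  intro I Ω _ _ _ _ U hU hhi n r W hr0 hr1 hW0 hWn hF0 hWε hnr
  set ε : ℝ := 1 / (32 * M * (4 * m + 1) ^ m) with hε
  have hεpos : 0 < ε := by positivity
  have hε1 : ε ≤ 1 := by
    rw [hε, div_le_one (by positivity)]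
    have h1 : (1 : ℝ) ≤ (4 * m + 1) ^ m := one_le_pow₀ (by linarith)
    nlinarith
  obtain ⟨F, hFdef⟩ : ∃ F : (ℕ →₀ ℝ) → ℝ, F = Fbar 𝕜 U := ⟨_, rfl⟩
  have hF : SymF F := hFdef ▸ (hsymf I Ω U hU).1
  rw [← hFdef] at hF0 hWε hnr
  obtain ⟨f, hf⟩ : ∃ f : (Fin m → ℝ) → (Fin m × Fin (2 ^ n) → I) → ℝ,
      f = fun b π => NR 𝕜 U π (fun js => b js.1 * W js.2) 0 := ⟨_, rfl⟩
  have hmean : ∀ b, av (f b) = F (cop b W) := by
    intro b
    rw [hf, hFdef]
    exact av_cop hsymf hU hWn b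
  -- the variance
  have hvar : ∀ b : Fin m → ℝ, (∀ j, 0 ≤ b j) → (∀ j, b j ≤ 1) →
      av (fun π => (f b π - F (cop b W)) ^ 2) ≤ ε * F W * M * F (cop b W) := by
    intro b hb0 hb1
    have h1 := hself I Ω (Fin m × Fin (2 ^ n)) U M hU hhi (fun js => b js.1 * W js.2)
      (ε * F W) fun js => ⟨mul_nonneg (hb0 _) (hW0 _), by
        have h2 := hWε js.2
        have h3 := hb1 js.1
        have h4 := hW0 js.2
        nlinarith⟩
    have h2 := hmean b
    rw [hf] at h2
    rw [h2] at h1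
    rw [hf]
    exact h1
  -- the sample
  obtain ⟨N, hN⟩ : ∃ N : Finset (Fin m → Fin (4 * m + 1)),
      N = Finset.univ.filter fun z => (∀ j, net m z j ≤ 1) ∧ ∃ j, net m z j = 1 := ⟨_, rfl⟩
  have hnet0 : ∀ z j, 0 ≤ net m z j := fun z j => by unfold net; positivity
  obtain ⟨π, hπ⟩ := exists_le_av (fun π : Fin m × Fin (2 ^ n) → I =>
    ∑ z ∈ N, (16 / F (cop (net m z) W) ^ 2) * (f (net m z) π - F (cop (net m z) W)) ^ 2)
  rw [av_sum] at hπ
  have hFN : ∀ z ∈ N, F W ≤ F (cop (net m z) W) := by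
    intro z hz
    rw [hN] at hz
    obtain ⟨-, j, hj⟩ := (Finset.mem_filter.1 hz).2
    have h1 := le_cop hF (b := net m z) (W := W) j
    rwa [hj, abs_one, one_mul] at h1
  have hNb : ∑ z ∈ N, av (fun π => (16 / F (cop (net m z) W) ^ 2) *
      (f (net m z) π - F (cop (net m z) W)) ^ 2) ≤ 1 / 2 := by
    have h1 : ∀ z ∈ N, av (fun π => (16 / F (cop (net m z) W) ^ 2) *
        (f (net m z) π - F (cop (net m z) W)) ^ 2) ≤ 16 * ε * M := by
      intro z hz
      have h2 := hFN z hz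
      have h3 : 0 < F (cop (net m z) W) := lt_of_lt_of_le hF0 h2
      rw [av_const_mul]
      have h4 := hvar (net m z) (hnet0 z) (by
        rw [hN] at hz
        exact (Finset.mem_filter.1 hz).2.1)
      calc 16 / F (cop (net m z) W) ^ 2 *
            av (fun π => (f (net m z) π - F (cop (net m z) W)) ^ 2) ≤
          16 / F (cop (net m z) W) ^ 2 * (ε * F W * M * F (cop (net m z) W)) :=
            mul_le_mul_of_nonneg_left h4 (by positivity)
        _ = 16 * ε * M * (F W / F (cop (net m z) W)) := by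
            field_simp
        _ ≤ 16 * ε * M * 1 := by
            refine mul_le_mul_of_nonneg_left ?_ (by positivity)
            rw [div_le_one h3]
            exact h2
        _ = 16 * ε * M := mul_one _
    have h5 : (N.card : ℝ) ≤ (4 * m + 1) ^ m := by
      have h6 : N.card ≤ (4 * m + 1) ^ m := by
        refine (Finset.card_le_univ _).trans (le_of_eq ?_)
        simp
      exact_mod_cast h6
    calc _ ≤ (N.card : ℝ) * (16 * ε * M) := by
          rw [← nsmul_eq_mul]
          exact Finset.sum_le_card_nsmul _ _ _ h1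
      _ ≤ (4 * m + 1) ^ m * (16 * ε * M) := mul_le_mul_of_nonneg_right h5 (by positivity)
      _ = 1 / 2 := by
          rw [hε]
          field_simp
          norm_num
  have hgood : ∀ z ∈ N, |f (net m z) π - F (cop (net m z) W)| ≤ F (cop (net m z) W) / 4 := by
    intro z hz
    have h3 : 0 < F (cop (net m z) W) := lt_of_lt_of_le hF0 (hFN z hz)
    have h1 : (16 / F (cop (net m z) W) ^ 2) * (f (net m z) π - F (cop (net m z) W)) ^ 2 ≤ 1 := by
      refine le_trans (Finset.single_le_sum (f := fun z => (16 / F (cop (net m z) W) ^ 2) *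
        (f (net m z) π - F (cop (net m z) W)) ^ 2) (fun z _ => by positivity) hz) ?_
      linarith
    refine abs_le_of_sq_le_sq ?_ (by positivity)
    rw [div_mul_eq_mul_div, div_le_one (by positivity)] at h1
    nlinarith
  have hμ : ∀ b b' : Fin m → ℝ, (∀ j, |b' j - b j| ≤ 1 / (4 * m)) →
      F (cop b' W) ≤ F (cop b W) + F W / 4 := by
    intro b b' h
    have h1 : cop b' W = cop b W + cop (fun j => b' j - b j) W := by
      rw [← cop_add]
      congr 1
      funext j
      ring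
    rw [h1]
    refine (hF.add _ _).trans (add_le_add le_rfl ((cop_le hF _ _).trans ?_))
    have h2 : ∑ j, |b' j - b j| ≤ 1 / 4 := by
      refine (Finset.sum_le_sum fun j _ => h j).trans (le_of_eq ?_)
      rw [Finset.sum_const, Finset.card_univ, Fintype.card_fin, nsmul_eq_mul]
      field_simp
    have h3 := mul_le_mul_of_nonneg_right h2 hF0.le
    linarith
  have hfmono : ∀ b b' : Fin m → ℝ, (∀ j, 0 ≤ b j) → (∀ j, b j ≤ b' j) → f b π ≤ f b' π := by
    intro b b' h0 h
    rw [hf]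
    exact NR_mono' hunc hU π (fun js => mul_nonneg (h0 _) (hW0 _))
      fun js => mul_le_mul_of_nonneg_right (h _) (hW0 _)
  have h4m0 : (0 : ℝ) < 4 * m := by positivity
  -- the case of maximum one
  have hone : ∀ b : Fin m → ℝ, (∀ j, 0 ≤ b j) → (∀ j, b j ≤ 1) → (∃ j, b j = 1) →
      f b π ≤ 2 * F (cop b W) ∧ F (cop b W) ≤ 2 * f b π := by
    intro b hb0 hb1 ⟨j0, hj0⟩
    have hbF : F W ≤ F (cop b W) := by
      have h1 := le_cop hF (b := b) (W := W) j0
      rwa [hj0, abs_one, one_mul] at h1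
    have hceil : ∀ j, ⌈4 * m * b j⌉₊ < 4 * m + 1 := by
      intro j
      have h1 : ⌈4 * m * b j⌉₊ ≤ 4 * m := by
        refine Nat.ceil_le.2 ?_
        push_cast
        have := hb1 j
        nlinarith
      omega
    have hfloor : ∀ j, ⌊4 * m * b j⌋₊ < 4 * m + 1 := fun j =>
      lt_of_le_of_lt (Nat.floor_le_ceil _) (hceil j)
    obtain ⟨zp, hzp⟩ : ∃ z : Fin m → Fin (4 * m + 1), ∀ j, (z j : ℕ) = ⌈4 * m * b j⌉₊ :=
      ⟨fun j => ⟨_, hceil j⟩, fun j => rfl⟩
    obtain ⟨zm, hzm⟩ : ∃ z : Fin m → Fin (4 * m + 1), ∀ j, (z j : ℕ) = ⌊4 * m * b j⌋₊ :=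
      ⟨fun j => ⟨_, hfloor j⟩, fun j => rfl⟩
    have hnp : ∀ j, net m zp j = (⌈4 * m * b j⌉₊ : ℝ) / (4 * m) := by
      intro j
      unfold net
      rw [hzp j]
    have hnm : ∀ j, net m zm j = (⌊4 * m * b j⌋₊ : ℝ) / (4 * m) := by
      intro j
      unfold net
      rw [hzm j]
    have hbj : ∀ j, 0 ≤ 4 * m * b j := fun j => mul_nonneg h4m0.le (hb0 j)
    have hp1 : ∀ j, b j ≤ net m zp j := by
      intro j
      rw [hnp, le_div_iff₀ h4m0]
      have := Nat.le_ceil (4 * m * b j)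
      linarith
    have hp2 : ∀ j, net m zp j - b j ≤ 1 / (4 * m) := by
      intro j
      rw [hnp, sub_le_iff_le_add, div_le_iff₀ h4m0]
      have := (Nat.ceil_lt_add_one (hbj j)).le
      have e : (1 / (4 * m) + b j) * (4 * m) = 1 + 4 * m * b j := by
        field_simp
      linarith
    have hm1' : ∀ j, net m zm j ≤ b j := by
      intro j
      rw [hnm, div_le_iff₀ h4m0]
      have := Nat.floor_le (hbj j)
      linarith
    have hm2 : ∀ j, b j - net m zm j ≤ 1 / (4 * m) := by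
      intro j
      rw [hnm, sub_le_iff_le_add, ← add_div, le_div_iff₀ h4m0]
      have := (Nat.lt_floor_add_one (4 * m * b j)).le
      linarith
    have hzpN : zp ∈ N := by
      rw [hN]
      refine Finset.mem_filter.2 ⟨Finset.mem_univ _, fun j => ?_, j0, ?_⟩
      · rw [hnp, div_le_one h4m0]
        have := hceil j
        exact_mod_cast Nat.lt_succ_iff.1 this
      · rw [hnp, hj0, mul_one]
        have : ⌈(4 * m : ℝ)⌉₊ = 4 * m := by
          have h1 : (4 * m : ℝ) = ((4 * m : ℕ) : ℝ) := by push_cast; rfl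
          rw [h1, Nat.ceil_natCast]
        rw [this]
        push_cast
        exact div_self h4m0.ne'
    have hzmN : zm ∈ N := by
      rw [hN]
      refine Finset.mem_filter.2 ⟨Finset.mem_univ _, fun j => (hm1' j).trans (hb1 j), j0, ?_⟩
      rw [hnm, hj0, mul_one]
      have : ⌊(4 * m : ℝ)⌋₊ = 4 * m := by
        have h1 : (4 * m : ℝ) = ((4 * m : ℕ) : ℝ) := by push_cast; rfl
        rw [h1, Nat.floor_natCast]
      rw [this]
      push_cast
      exact div_self h4m0.ne'
    have h1 := abs_le.1 (hgood zp hzpN)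
    have h2 := abs_le.1 (hgood zm hzmN)
    have h3 := hμ b (net m zp) fun j => by
      rw [abs_of_nonneg (sub_nonneg.2 (hp1 j))]
      exact hp2 j
    have h4 := hμ (net m zm) b fun j => by
      rw [abs_of_nonneg (sub_nonneg.2 (hm1' j))]
      exact hm2 j
    have h5 := hfmono b (net m zp) hb0 hp1
    have h6 := hfmono (net m zm) b (hnet0 zm) hm1'
    constructor
    · linarith [h1.2]
    · linarith [h2.1]
  -- the general case
  have hall : ∀ b : Fin m → ℝ, (∀ j, 0 ≤ b j) →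
      f b π ≤ 2 * F (cop b W) ∧ F (cop b W) ≤ 2 * f b π := by
    intro b hb0
    have : Nonempty (Fin m) := ⟨⟨0, hm⟩⟩
    obtain ⟨j0, hj0⟩ := Finite.exists_max b
    have hsc : ∀ (t : ℝ) (b' : Fin m → ℝ), 0 ≤ t → f (fun j => t * b' j) π = t * f b' π ∧
        F (cop (fun j => t * b' j) W) = t * F (cop b' W) := by
      intro t b' ht
      constructor
      · rw [hf]
        have h1 := NR_smul (𝕜 := 𝕜) U π t (fun js : Fin m × Fin (2 ^ n) => b' js.1 * W js.2)
        rw [abs_of_nonneg ht] at h1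
        rw [← h1]
        simp only [mul_assoc]
      · rw [cop_smul, hF.smul, abs_of_nonneg ht]
    rcases (hb0 j0).eq_or_lt with h0 | h0
    · have hb : b = fun j => 0 * (1 : ℝ) := by
        funext j
        have h1 := hj0 j
        have h2 := hb0 j
        rw [← h0] at h1
        linarith
      obtain ⟨h1, h2⟩ := hsc 0 (fun _ => 1) le_rfl
      rw [hb, h1, h2]
      constructor <;> linarith
    · have hb : b = fun j => b j0 * (b j / b j0) := by
        funext j
        field_simp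
      obtain ⟨h1, h2⟩ := hsc (b j0) (fun j => b j / b j0) h0.le
      obtain ⟨h3, h4⟩ := hone (fun j => b j / b j0) (fun j => div_nonneg (hb0 j) h0.le)
        (fun j => (div_le_one h0).2 (hj0 j)) ⟨j0, div_self h0.ne'⟩
      rw [hb, h1, h2]
      constructor
      · nlinarith
      · nlinarith
  refine ⟨2 ^ n, fun s => W s, π, F W, hF0, fun s => hW0 _, ?_, fun b hb => ?_⟩
  · calc ∑ s : Fin (2 ^ n), W s ≤ ∑ _s : Fin (2 ^ n), F W := by
          refine Finset.sum_le_sum fun s _ => (hWε s).trans ?_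
          nlinarith
      _ = 2 ^ n * F W := by
          rw [Finset.sum_const, Finset.card_univ, Fintype.card_fin, nsmul_eq_mul]
          push_cast
          rfl
  · obtain ⟨h1, h2⟩ := hall b hb
    obtain ⟨h3, h4⟩ := hnr b hb
    rw [hf] at h1 h2
    exact ⟨by linarith, by linarith⟩

end Pool.Agent.Lib.MP_cdd7b4_an.MX.H72
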