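import Pool.Agent.Lib.MP_cdd7b4_an.MX.Iface

set_option autoImplicit false

/-! # Module SYMF (helper72): `Fbar` is a symmetric norm -/

namespace Pool.Agent.Lib.MP_cdd7b4_an.MX.H72

open Pool.Agent.Lib.MP_cdd7b4_an.H80
open scoped BigOperators

section basic

variable {𝕜 : Type*} [RCLike 𝕜] {X : Type*} [NormedAddCommGroup X] [NormedSpace 𝕜 X]

/-- Slots with coefficient zero do not contribute. -/
theorem NU_drop (hmarg : MargStatement) {I Ω S S' : Type} [Fintype Ω] [Nonempty Ω] [Fintype S]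
    [DecidableEq S] [Fintype S'] [DecidableEq S'] (U : I → Ω → X) (e : S ↪ S') (π : S' → I)
    (v : S' → 𝕜) (h : ∀ s', s' ∉ Set.range e → v s' = 0) :
    NU U π v 0 = NU U (π ∘ e) (v ∘ e) 0 := by
  unfold NU
  have h1 := hmarg.1 S S' Ω e (fun κ : S → Ω => ‖∑ s, (v ∘ e) s • U ((π ∘ e) s) (κ s) + 0‖)
  rw [← h1]
  congr 1
  funext κ
  congr 2
  symm
  refine Fintype.sum_of_injective e e.injective _ _ (fun s' hs' => ?_) (fun s => rfl)
  rw [h s' hs', zero_smul]

theorem NR_drop (hmarg : MargStatement) {I Ω S S' : Type} [Fintype Ω] [Nonempty Ω] [Fintype S]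
    [DecidableEq S] [Fintype S'] [DecidableEq S'] (U : I → Ω → X) (e : S ↪ S') (π : S' → I)
    (w : S' → ℝ) (h : ∀ s', s' ∉ Set.range e → w s' = 0) :
    NR 𝕜 U π w 0 = NR 𝕜 U (π ∘ e) (w ∘ e) 0 := by
  unfold NR
  exact NU_drop hmarg U e π _ fun s' hs' => by rw [h s' hs', RCLike.ofReal_zero]

/-- The same for the average over the rows. -/
theorem av_NR_drop (hmarg : MargStatement) {I Ω S S' : Type} [Fintype I] [Nonempty I] [Fintype Ω]
    [Nonempty Ω] [Fintype S] [DecidableEq S] [Fintype S'] [DecidableEq S'] (U : I → Ω → X)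
    (e : S ↪ S') (w : S' → ℝ) (h : ∀ s', s' ∉ Set.range e → w s' = 0) :
    av (fun π : S' → I => NR 𝕜 U π w 0) = av (fun π : S → I => NR 𝕜 U π (w ∘ e) 0) := by
  rw [← hmarg.1 S S' I e (fun π : S → I => NR 𝕜 U π (w ∘ e) 0)]
  congr 1
  funext π
  exact NR_drop hmarg U e π w h

theorem NR_nonneg {I Ω S : Type} [Fintype Ω] [Fintype S] [DecidableEq S] (U : I → Ω → X)
    (π : S → I) (w : S → ℝ) (y : X) : 0 ≤ NR 𝕜 U π w y :=
  av_nonneg fun _ => norm_nonneg _

theorem NR_add_le {I Ω S : Type} [Fintype Ω] [Fintype S] [DecidableEq S] (U : I → Ω → X)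
    (π : S → I) (u v : S → ℝ) :
    NR 𝕜 U π (fun s => u s + v s) 0 ≤ NR 𝕜 U π u 0 + NR 𝕜 U π v 0 := by
  unfold NR NU
  rw [← av_add]
  refine av_mono fun κ => ?_
  have e : ∑ s, (((u s + v s : ℝ)) : 𝕜) • U (π s) (κ s) + 0 =
      (∑ s, ((u s : ℝ) : 𝕜) • U (π s) (κ s) + 0) +
        (∑ s, ((v s : ℝ) : 𝕜) • U (π s) (κ s) + 0) := by
    simp only [add_zero, RCLike.ofReal_add, add_smul, Finset.sum_add_distrib]
  rw [e]
  exact norm_add_le _ _

theorem NR_smul {I Ω S : Type} [Fintype Ω] [Fintype S] [DecidableEq S] (U : I → Ω → X)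
    (π : S → I) (c : ℝ) (u : S → ℝ) :
    NR 𝕜 U π (fun s => c * u s) 0 = |c| * NR 𝕜 U π u 0 := by
  unfold NR NU
  rw [← av_const_mul]
  congr 1
  funext κ
  have e : ∑ s, (((c * u s : ℝ)) : 𝕜) • U (π s) (κ s) + 0 =
      ((c : ℝ) : 𝕜) • (∑ s, ((u s : ℝ) : 𝕜) • U (π s) (κ s) + 0) := by
    simp only [add_zero, RCLike.ofReal_mul, mul_smul, Finset.smul_sum]
  rw [e, norm_smul, RCLike.norm_ofReal]

/-- Monotonicity in the coefficients. -/
theorem NR_mono (hunc : UncStatement 𝕜 X) {I Ω S : Type} [Fintype Ω] [Nonempty Ω] [Fintype S]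
    [DecidableEq S] {U : I → Ω → X} (hU : Symm U) (π : S → I) {u v : S → ℝ}
    (h : ∀ s, |u s| ≤ |v s|) : NR 𝕜 U π u 0 ≤ NR 𝕜 U π v 0 := by
  unfold NR
  refine (hunc I Ω S U hU π _ _).1 fun s => ?_
  by_cases hv : v s = 0
  · refine ⟨0, by simp, ?_⟩
    have h1 := h s
    rw [hv, abs_zero] at h1
    have h2 : u s = 0 := abs_eq_zero.1 (le_antisymm h1 (abs_nonneg _))
    simp [h2]
  · refine ⟨u s / v s, ?_, ?_⟩
    · rw [abs_div]
      exact div_le_one_of_le₀ (h s) (abs_nonneg _)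
    · rw [← RCLike.ofReal_mul, div_mul_cancel₀ _ hv]

theorem NR_mono' (hunc : UncStatement 𝕜 X) {I Ω S : Type} [Fintype Ω] [Nonempty Ω] [Fintype S]
    [DecidableEq S] {U : I → Ω → X} (hU : Symm U) (π : S → I) {u v : S → ℝ}
    (h0 : ∀ s, 0 ≤ u s) (h : ∀ s, u s ≤ v s) : NR 𝕜 U π u 0 ≤ NR 𝕜 U π v 0 :=
  NR_mono hunc hU π fun s => by
    rw [abs_of_nonneg (h0 s), abs_of_nonneg ((h0 s).trans (h s))]
    exact h s

/-- `Fbar` can be computed on every finite set containing the support. -/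
theorem Fbar_eq (hmarg : MargStatement) {I Ω : Type} [Fintype I] [Nonempty I] [Fintype Ω]
    [Nonempty Ω] (U : I → Ω → X) {S : Type} [Fintype S] [DecidableEq S] (e : S ↪ ℕ)
    (w : ℕ →₀ ℝ) (h : ∀ i, w i ≠ 0 → i ∈ Set.range e) :
    Fbar 𝕜 U w = av (fun π : S → I => NR 𝕜 U π (fun s => w (e s)) 0) := by
  have hex : ∀ x : w.support, ∃ s : S, e s = x := fun x =>
    h x.1 (Finsupp.mem_support_iff.1 x.2)
  choose g hg using hex
  let e0 : w.support ↪ S := ⟨g, fun a b hab => Subtype.ext (by rw [← hg a, ← hg b, hab])⟩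
  have he0 : ∀ x, e0 x = g x := fun _ => rfl
  have h1 := av_NR_drop (𝕜 := 𝕜) hmarg U e0 (fun s => w (e s)) fun s hs => by
    by_contra hc
    refine hs ⟨⟨e s, Finsupp.mem_support_iff.2 hc⟩, e.injective ?_⟩
    rw [he0, hg]
  rw [h1]
  unfold Fbar
  congr 1
  funext π
  congr 1
  funext x
  simp only [Function.comp_apply]
  rw [he0, hg]

end basic

/-- **SYMF** -/
theorem symf (𝕜 : Type*) [RCLike 𝕜] (X : Type*) [NormedAddCommGroup X] [NormedSpace 𝕜 X]
    (hmarg : MargStatement) (hunc : UncStatement 𝕜 X) : SymfStatement 𝕜 X := by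
  intro I Ω _ _ _ _ U hU
  refine ⟨⟨?_, ?_, ?_, ?_⟩, fun S _ _ e w h => Fbar_eq hmarg U e w h⟩
  · intro u v
    have hS : ∀ w : ℕ →₀ ℝ, w.support ⊆ u.support ∪ v.support →
        Fbar 𝕜 U w = av (fun π : ↥(u.support ∪ v.support) → I => NR 𝕜 U π (fun s => w s) 0) :=
      fun w hw => Fbar_eq hmarg U (Function.Embedding.subtype _) w fun i hi =>
        ⟨⟨i, hw (Finsupp.mem_support_iff.2 hi)⟩, rfl⟩
    rw [hS (u + v) Finsupp.support_add, hS u Finset.subset_union_left,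
      hS v Finset.subset_union_right, ← av_add]
    refine av_mono fun π => ?_
    simp only [Finsupp.add_apply]
    exact NR_add_le U π _ _
  · intro c u
    have h1 := Fbar_eq (𝕜 := 𝕜) hmarg U (Function.Embedding.subtype (· ∈ u.support)) (c • u)
      fun i hi => ⟨⟨i, Finsupp.mem_support_iff.2 fun hc => hi (by
        rw [Finsupp.smul_apply, hc, smul_zero])⟩, rfl⟩
    rw [h1]
    unfold Fbar
    rw [← av_const_mul]
    congr 1
    funext π
    rw [← NR_smul]
    rfl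
  · intro u v huv
    have hv : ∀ i, u i ≠ 0 → i ∈ v.support := fun i hi => Finsupp.mem_support_iff.2 fun hc => by
      have := huv i
      rw [hc, abs_zero] at this
      exact hi (abs_eq_zero.1 (le_antisymm this (abs_nonneg _)))
    have h1 := Fbar_eq (𝕜 := 𝕜) hmarg U (Function.Embedding.subtype (· ∈ v.support)) u
      fun i hi => ⟨⟨i, hv i hi⟩, rfl⟩
    rw [h1]
    unfold Fbar
    refine av_mono fun π => NR_mono hunc hU π fun s => huv _
  · intro f u
    have h1 := Fbar_eq (𝕜 := 𝕜) hmarg U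
      ((Function.Embedding.subtype (· ∈ u.support)).trans f) (u.embDomain f)
      fun i hi => by
        by_cases hr : i ∈ Set.range f
        · obtain ⟨j, rfl⟩ := hr
          rw [Finsupp.embDomain_apply_self] at hi
          exact ⟨⟨j, Finsupp.mem_support_iff.2 hi⟩, rfl⟩
        · exact absurd (Finsupp.embDomain_of_notMem_range _ _ _ hr) hi
    rw [h1]
    unfold Fbar
    congr 1
    funext π
    congr 1
    funext s
    exact Finsupp.embDomain_apply_self _ _ _

end Pool.Agent.Lib.MP_cdd7b4_an.MX.H72
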