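import Pool.Agent.Lib.MP_cdd7b4_an.MX.H72.Symf

set_option autoImplicit false

/-! # Module SEL1 (helper72): slow growth gives `ℓ_∞^m` -/

namespace Pool.Agent.Lib.MP_cdd7b4_an.MX.H72

open Pool.Agent.Lib.MP_cdd7b4_an.H80
open scoped BigOperators

theorem exists_le_av {α : Type*} [Fintype α] [Nonempty α] (f : α → ℝ) : ∃ a, f a ≤ av f := by
  by_contra hc
  push Not at hc
  have h1 : ∑ _a : α, av f < ∑ a, f a :=
    Finset.sum_lt_sum_of_nonempty Finset.univ_nonempty fun a _ => hc a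
  rw [Finset.sum_const, Finset.card_univ, nsmul_eq_mul] at h1
  have h2 : (0 : ℝ) < Fintype.card α := by exact_mod_cast Fintype.card_pos
  have h3 : (Fintype.card α : ℝ) * av f = ∑ a, f a := by
    unfold av
    field_simp
  linarith

theorem ind_apply (d i : ℕ) : ind d i = if i < d then 1 else 0 := by
  unfold ind
  rw [Finsupp.finsetSum_apply]
  simp only [Finsupp.single_apply, Finset.sum_ite_eq', Finset.mem_range]

section blocks

variable {𝕜 : Type*} [RCLike 𝕜] {X : Type*} [NormedAddCommGroup X] [NormedSpace 𝕜 X]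

/-- Restriction to fewer slots. -/
theorem NR_restrict (hmarg : MargStatement) (hunc : UncStatement 𝕜 X) {I Ω S S' : Type}
    [Fintype Ω] [Nonempty Ω] [Fintype S] [DecidableEq S] [Fintype S'] [DecidableEq S']
    {U : I → Ω → X} (hU : Symm U) (e : S ↪ S') (π : S' → I) {w : S' → ℝ} (hw : ∀ s, 0 ≤ w s) :
    NR 𝕜 U (π ∘ e) (w ∘ e) 0 ≤ NR 𝕜 U π w 0 := by
  classical
  have h1 := NR_drop (𝕜 := 𝕜) hmarg U e π (fun s' => if s' ∈ Set.range e then w s' else 0)
    fun s' hs' => if_neg hs'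
  have h2 : (fun s' => if s' ∈ Set.range e then w s' else 0) ∘ e = w ∘ e := by
    funext s
    simp only [Function.comp_apply]
    rw [if_pos ⟨s, rfl⟩]
  rw [h2] at h1
  rw [← h1]
  refine NR_mono' hunc hU π (fun s => ?_) (fun s => ?_)
  · split_ifs
    · exact hw s
    · exact le_rfl
  · split_ifs
    · exact le_rfl
    · exact hw s

/-- One block. -/
theorem NR_block (hmarg : MargStatement) (hunc : UncStatement 𝕜 X) {I Ω : Type}
    [Fintype Ω] [Nonempty Ω] {U : I → Ω → X} (hU : Symm U) {m s0 : ℕ}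
    (π : Fin m × Fin s0 → I) {W : Fin s0 → ℝ} (hW : ∀ s, 0 ≤ W s) {b : Fin m → ℝ}
    (hb : ∀ j, 0 ≤ b j) (j : Fin m) :
    b j * NR 𝕜 U (fun s => π (j, s)) W 0 ≤ NR 𝕜 U π (fun js => b js.1 * W js.2) 0 := by
  have h1 := NR_restrict hmarg hunc hU
    (⟨fun s => (j, s), fun a b h => (Prod.ext_iff.1 h).2⟩ : Fin s0 ↪ Fin m × Fin s0) π
    (w := fun js => b js.1 * W js.2) fun s => mul_nonneg (hb _) (hW _)
  refine le_trans (le_of_eq ?_) h1
  have h2 := NR_smul (𝕜 := 𝕜) U (fun s => π (j, s)) (b j) W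
  rw [abs_of_nonneg (hb j)] at h2
  rw [← h2]
  rfl

/-- The case `r = 0` with constant weights. -/
theorem rowsOK_zero (hmarg : MargStatement) (hunc : UncStatement 𝕜 X) {I Ω : Type}
    [Fintype Ω] [Nonempty Ω] {U : I → Ω → X} (hU : Symm U) {m s0 : ℕ} (hm : 1 ≤ m)
    (π : Fin m × Fin s0 → I) {A C R : ℝ} (hA : 0 < A) (hC : 0 ≤ C) (hR : (s0 : ℝ) ≤ R * A)
    (h1 : ∀ j, A ≤ C * NR 𝕜 U (fun s => π (j, s)) (fun _ => 1) 0)
    (h2 : NR 𝕜 U π (fun _ => 1) 0 ≤ C * A) : RowsOK 𝕜 U m C R 0 := by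
  refine ⟨s0, fun _ => 1, π, A, hA, fun _ => zero_le_one, ?_, fun b hb => ?_⟩
  · simpa using hR
  · have : Nonempty (Fin m) := ⟨⟨0, hm⟩⟩
    obtain ⟨j, hj⟩ := exists_eq_ciSup_of_finite (f := fun j => |b j|)
    have hn : nr 0 b = b j := by
      unfold nr
      rw [if_pos rfl, ← hj]
      exact abs_of_nonneg (hb j)
    have hmax : ∀ i, b i ≤ b j := by
      intro i
      have h3 : |b i| ≤ ⨆ j, |b j| := le_ciSup (Set.finite_range fun j => |b j|).bddAbove i
      rw [← hj, abs_of_nonneg (hb i), abs_of_nonneg (hb j)] at h3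
      exact h3
    rw [hn]
    constructor
    · have h4 := NR_block hmarg hunc hU π (W := fun _ => 1) (fun _ => zero_le_one) hb j
      calc b j * A ≤ b j * (C * NR 𝕜 U (fun s => π (j, s)) (fun _ => 1) 0) :=
            mul_le_mul_of_nonneg_left (h1 j) (hb j)
        _ = C * (b j * NR 𝕜 U (fun s => π (j, s)) (fun _ => 1) 0) := by ring
        _ ≤ _ := mul_le_mul_of_nonneg_left h4 hC
    · calc NR 𝕜 U π (fun js => b js.1 * 1) 0 ≤ NR 𝕜 U π (fun _ => b j * 1) 0 :=
            NR_mono' hunc hU π (fun s => mul_nonneg (hb _) zero_le_one)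
              fun s => mul_le_mul_of_nonneg_right (hmax _) zero_le_one
        _ = b j * NR 𝕜 U π (fun _ => 1) 0 := by
            have h5 := NR_smul (𝕜 := 𝕜) U π (b j) (fun _ => 1)
            rw [abs_of_nonneg (hb j)] at h5
            exact h5
        _ ≤ b j * (C * A) := mul_le_mul_of_nonneg_left h2 (hb j)
        _ = C * (b j * A) := by ring

/-- The mean of the norm over all slots. -/
theorem av_ind (hsymf : SymfStatement 𝕜 X) {I Ω : Type} [Fintype I] [Nonempty I] [Fintype Ω]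
    [Nonempty Ω] {U : I → Ω → X} (hU : Symm U) {S : Type} [Fintype S] [DecidableEq S] (d : ℕ)
    (e : S ≃ Fin d) :
    av (fun π : S → I => NR 𝕜 U π (fun _ => 1) 0) = Fbar 𝕜 U (ind d) := by
  have h1 := (hsymf I Ω U hU).2 S (e.toEmbedding.trans Fin.valEmbedding) (ind d) fun i hi => by
    rw [ind_apply] at hi
    have hid : i < d := by
      by_contra hc
      exact hi (if_neg hc)
    exact ⟨e.symm ⟨i, hid⟩, by simp⟩
  rw [h1]
  congr 1
  funext π
  congr 1
  funext s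
  rw [ind_apply]
  simp

end blocks

/-- **SEL1** -/
theorem sel1 (𝕜 : Type*) [RCLike 𝕜] (X : Type*) [NormedAddCommGroup X] [NormedSpace 𝕜 X]
    (hsymf : SymfStatement 𝕜 X) (hself : SelfbStatement 𝕜 X) (hunc : UncStatement 𝕜 X)
    (hmarg : MargStatement) : Sel1Statement 𝕜 X := by
  intro I Ω _ _ _ _ U M hU hlo hhi hM m k hm hgrow
  set q : ℕ := Nat.clog 2 (4 * m) with hq
  have h4m : 4 * m ≤ 2 ^ q := Nat.le_pow_clog (by norm_num) _
  set l : ℝ := Fbar 𝕜 U (ind (2 ^ k)) with hl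
  rcases lt_or_ge l (16 * M) with hlM | hlM
  · -- few slots suffice
    obtain ⟨π, hπ⟩ := exists_le_av (fun π : Fin (2 ^ (k + q)) → I => NR 𝕜 U π (fun _ => 1) 0)
    rw [av_ind hsymf hU (2 ^ (k + q)) (Equiv.refl _)] at hπ
    have hcard : Fintype.card (Fin m) ≤ Fintype.card (Fin (2 ^ (k + q))) := by
      rw [Fintype.card_fin, Fintype.card_fin, pow_add]
      have : 1 ≤ 2 ^ k := Nat.one_le_two_pow
      nlinarith
    obtain ⟨φ⟩ := Function.Embedding.nonempty_of_card_le hcard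
    let e : Fin m × Fin 1 ↪ Fin (2 ^ (k + q)) :=
      ⟨fun z => φ z.1, fun a b h => Prod.ext (φ.injective h) (Subsingleton.elim _ _)⟩
    refine rowsOK_zero hmarg hunc hU hm (s0 := 1) (π ∘ e) (A := 1) one_pos (by linarith) ?_ ?_ ?_
    · rw [mul_one, Nat.cast_one]
      exact one_le_pow₀ (by norm_num)
    · intro j
      have h1 : NR 𝕜 U (fun s : Fin 1 => (π ∘ e) (j, s)) (fun _ => 1) 0 =
          av (fun κ => ‖U (π (φ j)) κ‖) := by
        unfold NR NU
        rw [← av_coord (ι := Fin 1) 0 (fun κ => ‖U (π (φ j)) κ‖)]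
        congr 1
        funext κ
        have h0 : ∑ s : Fin 1, (((1 : ℝ)) : 𝕜) • U ((π ∘ e) (j, s)) (κ s) + 0 =
            U (π (φ j)) (κ 0) := by
          rw [Fintype.sum_unique, add_zero, RCLike.ofReal_one, one_smul]
          rfl
        exact congrArg norm h0
      rw [h1]
      have h2 := hlo (π (φ j))
      nlinarith
    · have h3 := NR_restrict hmarg hunc hU e π (w := fun _ => 1) fun _ => zero_le_one
      rw [mul_one]
      refine (le_trans h3 hπ).trans ?_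
      linarith
  · -- sampling of blocks
    have hl0 : 0 < l := by linarith
    have hqk : Fin (2 ^ q) × Fin (2 ^ k) ≃ Fin (2 ^ (k + q)) :=
      finProdFinEquiv.trans (finCongr (by rw [pow_add, mul_comm]))
    have hT : av (fun π : Fin (2 ^ q) × Fin (2 ^ k) → I => NR 𝕜 U π (fun _ => 1) 0) ≤ 2 * l := by
      rw [av_ind hsymf hU (2 ^ (k + q)) hqk]
      exact hgrow
    have hk : av (fun π : Fin (2 ^ k) → I => NR 𝕜 U π (fun _ => 1) 0) = l :=
      av_ind hsymf hU (2 ^ k) (Equiv.refl _)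
    have hvar := hself I Ω (Fin (2 ^ k)) U M hU hhi (fun _ => 1) 1
      fun _ => ⟨zero_le_one, le_rfl⟩
    rw [hk, one_mul] at hvar
    have hvar' : ∀ j : Fin (2 ^ q), av (fun π : Fin (2 ^ q) × Fin (2 ^ k) → I =>
        (NR 𝕜 U (fun s => π (j, s)) (fun _ => 1) 0 - l) ^ 2) ≤ M * l := by
      intro j
      refine le_trans (le_of_eq ?_) hvar
      exact hmarg.1 (Fin (2 ^ k)) (Fin (2 ^ q) × Fin (2 ^ k)) I
        ⟨fun s => (j, s), fun a b h => (Prod.ext_iff.1 h).2⟩
        (fun π => (NR 𝕜 U π (fun _ => 1) 0 - l) ^ 2)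
    obtain ⟨π, hπ⟩ := exists_le_av (fun π : Fin (2 ^ q) × Fin (2 ^ k) → I =>
      (8 / (2 ^ q * l ^ 2)) * (∑ j, (NR 𝕜 U (fun s => π (j, s)) (fun _ => 1) 0 - l) ^ 2) +
        (1 / (8 * l)) * NR 𝕜 U π (fun _ => 1) 0)
    rw [av_add, av_const_mul, av_const_mul, av_sum] at hπ
    have h2q : (0 : ℝ) < 2 ^ q := by positivity
    have hsum : ∑ j : Fin (2 ^ q), av (fun π : Fin (2 ^ q) × Fin (2 ^ k) → I =>
        (NR 𝕜 U (fun s => π (j, s)) (fun _ => 1) 0 - l) ^ 2) ≤ 2 ^ q * (M * l) := by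
      refine (Finset.sum_le_sum fun j _ => hvar' j).trans (le_of_eq ?_)
      simp
    have hA1 : (8 / (2 ^ q * l ^ 2)) * (∑ j : Fin (2 ^ q),
        av (fun π : Fin (2 ^ q) × Fin (2 ^ k) → I =>
          (NR 𝕜 U (fun s => π (j, s)) (fun _ => 1) 0 - l) ^ 2)) ≤ 1 / 2 := by
      calc _ ≤ (8 / (2 ^ q * l ^ 2)) * (2 ^ q * (M * l)) :=
            mul_le_mul_of_nonneg_left hsum (by positivity)
        _ = 8 * M / l := by field_simp
        _ ≤ 1 / 2 := by
            rw [div_le_iff₀ hl0]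
            linarith
    have hA2 : (1 / (8 * l)) * av (fun π : Fin (2 ^ q) × Fin (2 ^ k) → I =>
        NR 𝕜 U π (fun _ => 1) 0) ≤ 1 / 4 := by
      calc _ ≤ (1 / (8 * l)) * (2 * l) := mul_le_mul_of_nonneg_left hT (by positivity)
        _ = 1 / 4 := by
            field_simp
            norm_num
    have hlt : (8 / (2 ^ q * l ^ 2)) *
        (∑ j, (NR 𝕜 U (fun s => π (j, s)) (fun _ => 1) 0 - l) ^ 2) +
        (1 / (8 * l)) * NR 𝕜 U π (fun _ => 1) 0 < 1 := by
      refine lt_of_le_of_lt (hπ.trans (add_le_add hA1 hA2)) (by norm_num)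
    have hS0 : 0 ≤ ∑ j, (NR 𝕜 U (fun s => π (j, s)) (fun _ => 1) 0 - l) ^ 2 :=
      Finset.sum_nonneg fun _ _ => sq_nonneg _
    have hN0 : 0 ≤ NR 𝕜 U π (fun _ => 1) 0 := NR_nonneg _ _ _ _
    -- the total
    have hTπ : NR 𝕜 U π (fun _ => 1) 0 ≤ 8 * l := by
      have h1 : (1 / (8 * l)) * NR 𝕜 U π (fun _ => 1) 0 < 1 := by
        have : 0 ≤ (8 / (2 ^ q * l ^ 2)) *
          (∑ j, (NR 𝕜 U (fun s => π (j, s)) (fun _ => 1) 0 - l) ^ 2) := by positivity
        linarith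
      rw [one_div, inv_mul_lt_iff₀ (by positivity)] at h1
      linarith
    -- the bad blocks
    classical
    set G : Finset (Fin (2 ^ q)) := Finset.univ.filter fun j =>
      l / 2 ≤ NR 𝕜 U (fun s => π (j, s)) (fun _ => 1) 0 with hG
    have hbad : ((Gᶜ).card : ℝ) * (l ^ 2 / 4) ≤
        ∑ j, (NR 𝕜 U (fun s => π (j, s)) (fun _ => 1) 0 - l) ^ 2 := by
      calc ((Gᶜ).card : ℝ) * (l ^ 2 / 4) = ∑ _j ∈ Gᶜ, l ^ 2 / 4 := by
            rw [Finset.sum_const, nsmul_eq_mul]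
        _ ≤ ∑ j ∈ Gᶜ, (NR 𝕜 U (fun s => π (j, s)) (fun _ => 1) 0 - l) ^ 2 := by
            refine Finset.sum_le_sum fun j hj => ?_
            have h1 : ¬ l / 2 ≤ NR 𝕜 U (fun s => π (j, s)) (fun _ => 1) 0 := by
              intro hc
              rw [Finset.mem_compl] at hj
              exact hj (Finset.mem_filter.2 ⟨Finset.mem_univ _, hc⟩)
            push Not at h1
            nlinarith
        _ ≤ _ := Finset.sum_le_sum_of_subset_of_nonneg (Finset.subset_univ _)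
            fun _ _ _ => sq_nonneg _
    have hbad2 : ((Gᶜ).card : ℝ) < 2 ^ q / 2 := by
      have h1 : (8 / (2 ^ q * l ^ 2)) *
          (∑ j, (NR 𝕜 U (fun s => π (j, s)) (fun _ => 1) 0 - l) ^ 2) < 1 := by
        have : 0 ≤ (1 / (8 * l)) * NR 𝕜 U π (fun _ => 1) 0 := by positivity
        linarith
      have h2 : (8 / (2 ^ q * l ^ 2)) * (((Gᶜ).card : ℝ) * (l ^ 2 / 4)) < 1 :=
        lt_of_le_of_lt (mul_le_mul_of_nonneg_left hbad (by positivity)) h1
      have h3 : (8 / (2 ^ q * l ^ 2)) * (((Gᶜ).card : ℝ) * (l ^ 2 / 4)) =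
          2 * ((Gᶜ).card : ℝ) / 2 ^ q := by
        field_simp
        ring
      rw [h3, div_lt_one h2q] at h2
      linarith
    have hgood : m ≤ G.card := by
      have h1 : (Gᶜ).card + G.card = 2 ^ q := by
        rw [Finset.card_compl_add_card, Fintype.card_fin]
      have h2 : 2 * (Gᶜ).card < 2 ^ q := by
        have : (2 : ℝ) * ((Gᶜ).card : ℝ) < 2 ^ q := by linarith
        exact_mod_cast this
      omega
    have hcard : Fintype.card (Fin m) ≤ Fintype.card G := by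
      rw [Fintype.card_fin, Fintype.card_coe]
      exact hgood
    obtain ⟨φ⟩ := Function.Embedding.nonempty_of_card_le hcard
    let e : Fin m × Fin (2 ^ k) ↪ Fin (2 ^ q) × Fin (2 ^ k) :=
      ⟨fun z => ((φ z.1 : Fin (2 ^ q)), z.2), fun a b h => by
        obtain ⟨h1, h2⟩ := Prod.ext_iff.1 h
        exact Prod.ext (φ.injective (Subtype.ext h1)) h2⟩
    refine rowsOK_zero hmarg hunc hU hm (s0 := 2 ^ k) (π ∘ e) (A := l) hl0 (by linarith) ?_ ?_ ?_
    · push_cast
      have : (0 : ℝ) < 2 ^ k := by positivity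
      nlinarith
    · intro j
      have h1 := (Finset.mem_filter.1 (φ j).2).2
      have h2 : l / 2 ≤ NR 𝕜 U (fun s => (π ∘ e) (j, s)) (fun _ => 1) 0 := h1
      nlinarith
    · have h3 := NR_restrict hmarg hunc hU e π (w := fun _ => 1) fun _ => zero_le_one
      refine (le_trans h3 hTπ).trans ?_
      nlinarith

end Pool.Agent.Lib.MP_cdd7b4_an.MX.H72
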